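import Pool.Agent.Lib.MP_245eb3_an.Classes

/-!
Partial answer to Q1 (Burke and Pol): norm discrete sets which are not weakly Borel exist in `C(K)`
whenever `Bo(C(K), w) ≠ Bo(C(K))`, for a class of compact spaces containing all scattered ones,
all spaces with a closed metrizable subset whose complement is scattered (metrizable perfect
kernel), and all countable products of scattered and metrizable compact spaces; and for every `K`
such that `C(K)` contains an isomorphic copy of some `C(L)` with `L` in this class and
`Bo(C(L), w) ≠ Bo(C(L))`.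

Idea: on such spaces a continuous function whose values keep away from a grid can be rounded to
the grid, the rounding is weak-to-weak continuous on a weakly closed set, and countably many such
sets cover the space. So if all uniformly discrete sets are weakly Borel, then all norm-open sets
are weakly Borel.
-/

set_option autoImplicit false

open Set
open scoped MeasureTheory
open Pool.Agent.Lib.WeakBorel

universe u v

namespace Pool.Agent.Results.MP_245eb3_an.ScatteredCase

theorem result :
    (∀ (L : Type u) [TopologicalSpace L] [CompactSpace L] [T2Space L]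
        (K : Type v) [TopologicalSpace K] [CompactSpace K] [T2Space K],
      Tame L → ∀ (J : C(L, ℝ) →L[ℝ] C(K, ℝ)) (c : ℝ), 0 < c → (∀ y, c * ‖y‖ ≤ ‖J y‖) →
      MeasurableSpace.comap (toWeakSpace ℝ C(L, ℝ)) (borel (WeakSpace ℝ C(L, ℝ)))
          ≠ borel C(L, ℝ) →
      ∃ D : Set C(K, ℝ), (∃ δ > 0, ∀ f ∈ D, ∀ g ∈ D, f ≠ g → δ ≤ ‖f - g‖) ∧
        DiscreteTopology D ∧
        ¬ @MeasurableSet C(K, ℝ)
            (MeasurableSpace.comap (toWeakSpace ℝ C(K, ℝ)) (borel (WeakSpace ℝ C(K, ℝ)))) D) ∧
    (∀ (L : Type u) [TopologicalSpace L] [CompactSpace L] [T2Space L],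
      ScatteredByMetrizable L → Tame L) ∧
    (∀ (L : Type u) [TopologicalSpace L] [CompactSpace L] [T2Space L],
      CountableProduct L → Tame L) := by
  refine ⟨?_, ?_, ?_⟩
  · intro L _ _ _ K _ _ _ hL J c hc hJ hne
    obtain ⟨D, ⟨δ, hδ, hsep⟩, hD⟩ := transfer J hc hJ (hL.hasRounding.main hne)
    refine ⟨D, ⟨δ, hδ, hsep⟩, ?_, hD⟩
    apply DiscreteTopology.of_forall_le_dist hδ
    intro x y hxy
    rw [Subtype.dist_eq, dist_eq_norm]
    exact hsep x x.2 y y.2 (fun h => hxy (Subtype.ext h))
  · intro L _ _ _ h
    exact tame_of_scatteredByMetrizable h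
  · intro L _ _ _ h
    exact tame_of_countableProduct h

end Pool.Agent.Results.MP_245eb3_an.ScatteredCase
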